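import Mathlib
import Pool.Agent.Results.MP_674d90_lc.Safety

set_option autoImplicit false

namespace Pool.Agent.Results.MP_4814b8_lc.Both

open Pool.Agent.Results.MP_674d90_lc.Safety

variable {V : Type} (P : Set V) (E : Set (V × Fin 5 × V))

def X : ℕ → V → Q → Prop
  | 0, _, q => q = .dead
  | t + 1, v, q => q = .dead ∨ (v ∈ P ∧ ∃ e ∈ E, e.1 = v ∧ X t e.2.2 (step q e.2.1)) ∨
      (v ∉ P ∧ ∀ e ∈ E, e.1 = v → X t e.2.2 (step q e.2.1))

variable {P E}

lemma X_succ : ∀ t v q, X P E t v q → X P E (t + 1) v q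
  | 0, _, _, h => .inl h
  | t + 1, _, _, h => h.imp id (Or.imp (fun ⟨a, e, b, c, d⟩ => ⟨a, e, b, c, X_succ t _ _ d⟩)
      fun ⟨a, b⟩ => ⟨a, fun e c d => X_succ t _ _ (b e c d)⟩)

lemma X_mono {s t : ℕ} (h : s ≤ t) {v : V} {q : Q} (k : X P E s v q) : X P E t v q := by
  induction h with
  | refl => exact k
  | step _ ih => exact X_succ _ _ _ ih

lemma X_next (hE : ∀ v, ∃ e ∈ E, e.1 = v) {t : ℕ} {v : V} {q : Q} (h : X P E (t + 1) v q) :
    q = .dead ∨ ∃ w c, X P E t w (step q c) := by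
  rcases h with h | ⟨-, e, -, -, h⟩ | ⟨-, h⟩
  · exact .inl h
  · exact .inr ⟨_, _, h⟩
  · obtain ⟨e, a, b⟩ := hE v
    exact .inr ⟨_, _, h e a b⟩

lemma X_top (hE : ∀ v, ∃ e ∈ E, e.1 = v) : ∀ t v, ¬X P E t v .top
  | 0, _, h => by cases h
  | t + 1, _, h => by
    rcases X_next hE h with h | ⟨w, c, h⟩
    · cases h
    · exact X_top hE t w h

lemma X_lv (hE : ∀ v, ∃ e ∈ E, e.1 = v) : ∀ t v n b, X P E t v (.lv n b) → n < t
  | 0, _, _, _, h => by cases h
  | t + 1, _, n, b, h => by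
    rcases X_next hE h with h | ⟨w, c, h⟩
    · cases h
    simp only [step] at h
    split_ifs at h <;> first | omega | exact absurd h (X_top hE t w) |
      (have := X_lv hE t w _ _ h; omega)

lemma gap {n n' j k : ℕ} {b b' d d' : Fin 2} {c : Fin 5} (h : step (.lv n b) c = .lv j d)
    (h' : step (.lv n' b') c = .lv k d') : k + n = j + n' := by
  simp only [step] at h h'
  split_ifs at h h' <;> simp at h h' <;> omega

lemma konig [Finite V] (hE : ∀ v, ∃ e ∈ E, e.1 = v) {S : V → List (V × Fin 5 × V) → V × Fin 5 × V}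
    (hS : Strat P E S) {u : V} (hw : Wins Wᶜ P E S u) : ∃ t, X P E t u (.lv 0 0) := by
  classical
  by_contra hc
  push Not at hc
  have : ∀ v q, ∃ e, e ∈ E ∧ e.1 = v ∧ (v ∉ P → (∀ t, ¬X P E t v q) →
      ∀ t, ¬X P E t e.2.2 (step q e.2.1)) := fun v q => by
    by_contra c
    push Not at c
    choose! c1 c2 f c3 using c
    obtain ⟨T, hT⟩ := (Set.toFinite (Set.range f)).bddAbove
    obtain ⟨e, a, b⟩ := hE v
    exact c2 e a b (T + 1) (.inr (.inr ⟨c1 e a b, fun e a b => X_mono (hT ⟨e, rfl⟩) (c3 e a b)⟩))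
  choose o o1 o2 o3 using this
  obtain ⟨e, he, -⟩ := extend (P := Set.univ) (S := fun u l => if last u l ∈ P then S u l else
    o (last u l) ((l.map (·.2.1)).foldl step (.lv 0 0))) hE (fun u l v h _ => by
      simp only [h.last]
      split_ifs with c
      · exact hS u l v h c
      · exact ⟨o1 _ _, o2 _ _⟩) u 0 (fun _ => S u []) (by simp)
  have e1 : ∀ i, e i = if (e i).1 ∈ P then S u ((List.range i).map e) else
      o (e i).1 (run (fun i => (e i).2.1) i) := fun i => by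
    have := (he.2 i).2.2 trivial
    simp only [(he.path i).last, List.map_map] at this
    exact this
  refine hw e ⟨he.1, fun i => ⟨(he.2 i).1, (he.2 i).2.1, fun c => (e1 i).trans (if_pos c)⟩⟩
    fun n c => ?_
  have : ∀ n t, ¬X P E t (e n).1 (run (fun i => (e i).2.1) n) := fun n => by
    induction n with
    | zero => rw [he.1]; exact hc
    | succ n ih =>
      rw [run_succ, ← (he.2 n).2.1]
      by_cases k : (e n).1 ∈ P
      · exact fun t x => ih (t + 1) (.inr (.inl ⟨k, e n, (he.2 n).1, rfl, x⟩))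
      · have := o3 _ _ k ih
        rwa [← (e1 n).trans (if_neg k)] at this
  exact this n 0 c

def bit : Q → Fin 2
  | .lv _ b => b
  | _ => 0

theorem co : Mem Wᶜ 2 False := by
  classical
  intro V _ _ P E hE
  obtain ⟨T, hT⟩ : ∃ T, ∀ u, (∃ t, X P E t u (.lv 0 0)) → X P E T u (.lv 0 0) := by
    have : ∀ u, ∃ t, (∃ t, X P E t u (.lv 0 0)) → X P E t u (.lv 0 0) := fun u => by
      by_cases h : ∃ t, X P E t u (.lv 0 0)
      · exact h.imp fun _ a _ => a
      · exact ⟨0, fun a => absurd a h⟩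
    choose f hf using this
    obtain ⟨T, hT⟩ := (Set.toFinite (Set.range f)).bddAbove
    exact ⟨T, fun u h => X_mono (hT ⟨u, rfl⟩) (hf u h)⟩
  obtain ⟨μ, hμ⟩ : ∃ μ : V → Fin 2 → Q, ∀ v k b, X P E T v (.lv k b) →
      μ v b = .lv k b ∨ ∃ n c, k < n ∧ μ v b = .lv n c ∧ X P E T v (.lv n c) := by
    let N := fun v => Nat.findGreatest (fun n => ∃ b, X P E T v (.lv n b)) T
    refine ⟨fun v b => if X P E T v (.lv (N v) b) then .lv (N v) b else .lv (N v) (b + 1),
      fun v k b h => ?_⟩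
    have a := (X_lv hE _ _ _ _ h).le
    obtain ⟨c, hc⟩ : ∃ b, X P E T v (.lv (N v) b) :=
      Nat.findGreatest_spec (P := fun n => ∃ b, X P E T v (.lv n b)) a ⟨b, h⟩
    rcases (show k ≤ N v from Nat.le_findGreatest a ⟨b, h⟩).eq_or_lt with e | e
    · subst e; exact .inl (if_pos h)
    · refine .inr ⟨N v, ?_⟩
      by_cases x : X P E T v (.lv (N v) b)
      · exact ⟨b, e, if_pos x, x⟩
      · refine ⟨b + 1, e, if_neg x, ?_⟩
        rwa [show b + 1 = c by have : b ≠ c := fun y => x (y ▸ hc); omega]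
  have : ∀ v q, ∃ e, e ∈ E ∧ e.1 = v ∧ (v ∈ P → q ≠ .dead → ∀ t, X P E (t + 1) v q →
      X P E t e.2.2 (step q e.2.1)) := fun v q => by
    by_cases k : v ∈ P ∧ q ≠ .dead ∧ ∃ t, X P E (t + 1) v q
    · obtain ⟨k1, k2, k3⟩ := k
      rcases Nat.find_spec k3 with h | ⟨-, e, a, b, c⟩ | h
      · exact absurd h k2
      · exact ⟨e, a, b, fun _ _ t x => X_mono (Nat.find_min' k3 x) c⟩
      · exact absurd k1 h.1
    · obtain ⟨e, a, b⟩ := hE v
      exact ⟨e, a, b, fun x y t z => absurd ⟨x, y, t, z⟩ k⟩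
  choose σ σ1 σ2 σ3 using this
  let δ : Fin 2 → V × Fin 5 × V → Fin 2 := fun m e => bit (step (μ e.1 m) e.2.1)
  refine ⟨fun u l => σ (last u l) (μ (last u l) (l.foldl δ 0)), 0, δ,
    fun u l v h _ => ⟨σ1 _ _, (σ2 _ _).trans h.last⟩, False.elim,
    fun u l u' l' v h h' _ c => by simp only [h.last, h'.last, c], ?_⟩
  rintro u ⟨S, hS, hw⟩ e he hW
  have x0 := hT u (konig hE hS hw)
  have jump : ∀ v i j d k b t, X P E t v (.lv k b) → t ≤ T → (j < k ∨ (j = k ∧ d = b)) →
      i + t ≤ (k - j) * (T + 1) + T → ∃ n' b' t, μ v b = .lv n' b' ∧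
      (j < n' ∨ (j = n' ∧ d = b')) ∧ t ≤ T ∧ X P E t v (.lv n' b') ∧
      i + t ≤ (n' - j) * (T + 1) + T := fun v i j d k b t h1 h2 h3 h4 => by
    rcases hμ v k b (X_mono h2 h1) with h | ⟨n, c, a1, a2, a3⟩
    · exact ⟨k, b, t, h, h3, h2, h1, h4⟩
    · refine ⟨n, c, T, a2, by omega, le_rfl, a3, ?_⟩
      have := Nat.mul_le_mul_right (T + 1) (show k - j + 1 ≤ n - j by omega)
      rw [add_mul] at this
      omega
  have inv : ∀ i, ∃ n b, run (fun i => (e i).2.1) i = .lv n b ∧ ∃ n' b' t,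
      μ (e i).1 (((List.range i).map e).foldl δ 0) = .lv n' b' ∧ (n < n' ∨ (n = n' ∧ b = b')) ∧
      t ≤ T ∧ X P E t (e i).1 (.lv n' b') ∧ i + t ≤ (n' - n) * (T + 1) + T := by
    intro i
    induction i with
    | zero => exact ⟨0, 0, rfl, he.1 ▸ jump u 0 0 0 0 0 T x0 le_rfl (by simp) (by simp)⟩
    | succ i ih =>
      obtain ⟨n, b, h1, n', b', t, h2, h3, h4, h5, h6⟩ := ih
      have nd := hW (i + 1)
      rw [List.range_succ, List.map_append, List.foldl_append, run_succ, ← (he.2 i).2.1, h1] at *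
      have := (he.2 i).2.2
      simp only [(he.path i).last, h2] at this
      rcases t with _ | t
      · cases h5
      have k : X P E t (e i).2.2 (step (.lv n' b') (e i).2.1) := by
        by_cases c : (e i).1 ∈ P
        · have a := σ3 _ _ c (by simp) t h5
          rwa [← this c] at a
        · rcases h5 with h | h | h
          · cases h
          · exact absurd h.1 c
          · exact h.2 _ (he.2 i).1 rfl
      have m := step_mono (p := .lv n b) (q := .lv n' b') h3 (e i).2.1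
      simp only [List.map_cons, List.map_nil, List.foldl_cons, List.foldl_nil, δ, h2]
      rcases hz : step (.lv n' b') (e i).2.1 with _ | _ | ⟨k', d'⟩ <;> rw [hz] at k m
      · rcases ha : step (.lv n b) (e i).2.1 with _ | _ | _ <;> simp [ha, le] at nd m
      · exact absurd k (X_top hE _ _)
      rcases ha : step (.lv n b) (e i).2.1 with _ | _ | ⟨j, d⟩ <;> rw [ha] at nd m
      · exact absurd rfl nd
      · cases m
      have := gap ha hz
      exact ⟨j, d, rfl, jump _ _ j d k' d' t k (by omega) m (by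
        rw [show k' - j = n' - n by omega]; omega)⟩
  obtain ⟨n, b, -, n', b', t, -, -, h4, h5, h6⟩ := inv (T * (T + 1) + T + 1)
  have := X_lv hE _ _ _ _ h5
  have := Nat.mul_le_mul_right (T + 1) (show n' - n ≤ T by omega)
  omega

theorem result : ∃ W : Set (ℕ → Fin 5), Mem W 2 False ∧ Mem Wᶜ 2 False ∧ ∀ k, ¬Mem W k True :=
  ⟨W, gen, co, chr⟩

end Pool.Agent.Results.MP_4814b8_lc.Both
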